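import Pool.Agent.H35.EX.AJ.Defs

set_option autoImplicit false

open Filter Topology Polynomial OnePoint Metric Set

namespace Pool.Agent.H35.EX

open Pool.Agent.H44.Fatou Pool.Agent.H32.BT Pool.Agent.H80.AJ

/-- existence of inverse branches off `A`: `Pool.Agent.H32.BT.branch`; if `f^[n] u = y ∉ A` then
`f^[i] u ∉ A` for `i ≤ n`, so `f^[i] u` is finite, and not critical for `i < n` (else
`f^[i+1] u ∈ A`). -/
theorem Sys0.br {P Q : Polynomial ℂ} {A : Set (OnePoint ℂ)} (h : Sys0 P Q A) {w : ℂ} {R : ℝ}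
    (hR : 0 < R) (hw : Off A w R) {z : ℂ} {n : ℕ}
    (hz : (rat P Q)^[n] (z : OnePoint ℂ) = (w : OnePoint ℂ)) :
    ∃ G : ℂ → ℂ, Br (rat P Q) n w R z G := by
  have hnot : ∀ y ∈ ball w R, ∀ u : OnePoint ℂ, (rat P Q)^[n] u = (y : OnePoint ℂ) →
      ∀ i ≤ n, (rat P Q)^[i] u ∉ A := by
    intro y hy u hu i hi hA
    apply hw y hy
    rw [← hu]
    obtain ⟨j, rfl⟩ := Nat.exists_eq_add_of_le hi
    rw [Nat.add_comm, Function.iterate_add_apply]
    exact iter_mem h.inv hA j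
  obtain ⟨G, hG1, hG2, hG3⟩ := branch h.cop h.deg hR (n := n) (x := w) (fun y hy u hu => by
    refine ⟨fun i hi hc => ?_, fun i hi => ?_⟩
    · have h1 := h.crit _ hc
      rw [← Function.iterate_succ_apply' (rat P Q)] at h1
      exact hnot y hy u hu (i + 1) hi h1
    · have h1 := hnot y hy u hu i hi
      induction hx : (rat P Q)^[i] u using OnePoint.rec with
      | infty => rw [hx] at h1; exact absurd h.inf h1
      | coe v => exact ⟨v, rfl⟩) hz
  exact ⟨G, hG1, hG2, hG3⟩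

theorem Sys0.br_off {P Q : Polynomial ℂ} {A : Set (OnePoint ℂ)} (h : Sys0 P Q A) {n : ℕ} {w : ℂ}
    {R : ℝ} (hw : Off A w R) {z : ℂ} {G : ℂ → ℂ} (hG : Br (rat P Q) n w R z G) {u : ℂ}
    (hu : u ∈ ball w R) : (G u : OnePoint ℂ) ∉ A := by
  intro hA
  apply hw u hu
  rw [← hG.inv u hu]
  exact iter_mem h.inv hA n

end Pool.Agent.H35.EX
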