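import Pool.Agent.H35.EX.AJ.Basic
import Pool.Agent.H80.AJ.Cover

set_option autoImplicit false

open Filter Topology Polynomial OnePoint Metric Set

namespace Pool.Agent.H35.EX

open Pool.Agent.H44.Fatou Pool.Agent.H32.BT Pool.Agent.H80.AJ

/-
Proof. `univ_cover` on `ball w R` (`hG.inj`): `ball z (R ‖deriv G w‖ / 16) ⊆ G '' ball w R`; if
`‖a - z‖` were smaller, `a = G u` with `u ∈ ball w R`, against `Sys0.br_off`.
-/
theorem Sys0.br_bound {P Q : Polynomial ℂ} {A : Set (OnePoint ℂ)} (h : Sys0 P Q A) {n : ℕ} {w : ℂ}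
    {R : ℝ} (hR : 0 < R) (hw : Off A w R) {z : ℂ} {G : ℂ → ℂ} (hG : Br (rat P Q) n w R z G) {a : ℂ}
    (ha : (a : OnePoint ℂ) ∈ A) : R * ‖deriv G w‖ / 16 ≤ ‖a - z‖ := by
  by_contra hcon
  push Not at hcon
  have h1 := univ_cover hR hG.diff hG.inj
  rw [hG.val] at h1
  have h2 : a ∈ ball z (R * ‖deriv G w‖ / 16) := by
    rw [mem_ball, dist_eq_norm]
    exact hcon
  obtain ⟨u, hu, hua⟩ := h1 h2
  apply h.br_off hw hG hu
  rw [hua]
  exact ha

end Pool.Agent.H35.EX
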