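import Pool.Agent.H80.AJ.Basic

/-!
# Area of the set of bad points: definitions (post-critical sets which are not countable)

`Sys0` is `Sys` of Pool/Agent/H80/AJ without countability; `NoRec`: iterates do not converge to the identity on a disc
centred off `A`. The files of this folder are copies of files of Pool/Agent/H80/AJ with these hypotheses.
-/

set_option autoImplicit false

open Filter Topology Polynomial OnePoint Metric Set MeasureTheory

namespace Pool.Agent.H35.EX

open Pool.Agent.H44.Fatou Pool.Agent.H32.BT Pool.Agent.H80.AJ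

/-- a closed forward invariant set containing the critical values, infinity and some finite point -/
structure Sys0 (P Q : Polynomial ℂ) (A : Set (OnePoint ℂ)) : Prop where
  cop : IsCoprime P Q
  deg : 1 ≤ max P.natDegree Q.natDegree
  closed : IsClosed A
  inv : ∀ x ∈ A, rat P Q x ∈ A
  crit : ∀ c, IsCrit (rat P Q) c → rat P Q c ∈ A
  inf : ∞ ∈ A
  fin : ∃ a : ℂ, (a : OnePoint ℂ) ∈ A

/-- no high iterates are close to the identity on a disc centred off `A` -/
def NoRec (P Q : Polynomial ℂ) (A : Set (OnePoint ℂ)) : Prop :=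
  ∀ (y : ℂ) (ρ : ℝ), 0 < ρ → (y : OnePoint ℂ) ∉ A →
    ¬ ∀ η : ℝ, 0 < η → ∀ N : ℕ, ∃ m : ℕ, N ≤ m ∧ ∀ v ∈ ball y ρ, ∃ v' : ℂ,
      (rat P Q)^[m] (v : OnePoint ℂ) = (v' : OnePoint ℂ) ∧ ‖v' - v‖ < η

end Pool.Agent.H35.EX
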