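import Pool.Agent.H35.EX.AJ.Scales
import Pool.Agent.H32.BT.IterDiff

set_option autoImplicit false

open Filter Topology Polynomial OnePoint Metric Set

namespace Pool.Agent.H35.EX

open Pool.Agent.H44.Fatou Pool.Agent.H32.BT Pool.Agent.H80.AJ

/-
Points with a neighbourhood of good points are dense.
Proof. Suppose no such sub-disc exists. `W = {∞} ∪ {z : R0 < ‖z‖}` is a neighbourhood of each of its
points consisting of points that are not bad (`not_bad_of_mem` for `∞ ∈ A`). For every `k` and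
`x ∈ ball y0 r0`: `f^[k] x ∉ W`, otherwise (continuity of `f^[k]`, `rat_continuous`) a disc around
`x` is mapped into `W` and consists of points that are not bad (`bad_iter`). So all `f^[k] x` are
finite with norm `≤ R0` on `ball y0 r0`. Take a bad `x` in the ball (the ball itself does not
consist of good points), `y` its cluster point outside `A` (finite since `∞ ∈ A`), `r` from
`exists_off`, `ρ > 0` with `ball x ρ ⊆ ball y0 r0`. `iter_diff`: `f^[k]` is a holomorphic function
`F k` on `ball x ρ`, bounded by `R0`, so `‖F k x' - F k x‖ ≤ (4 R0 / ρ) ‖x' - x‖` for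
`‖x' - x‖ ≤ ρ/2` (Cauchy estimate and mean value, or Schwarz
`Complex.dist_le_div_mul_dist_of_mapsTo_ball`). `scales` (good disc: a disc in
`{R0 < ‖z‖}`) with small `δ`: `G` on `ball w (3 r)`, `x' = G (w + r)`,
`‖x' - x‖ ≤ KK δ r` (`distort_lip` on `closedBall w (3 r / 2)`), `f^[k] x' = w + r`,
`f^[k] x = w`: `r ≤ (4 R0/ρ) KK δ r`, contradiction for small `δ`.
-/
theorem dense_nb {P Q : Polynomial ℂ} {A : Set (OnePoint ℂ)} (h : Sys0 P Q A) (hnr : NoRec P Q A) {R0 : ℝ}
    (hinf : ∀ z : ℂ, R0 < ‖z‖ → ¬ Bad (rat P Q) A (z : OnePoint ℂ)) (y0 : ℂ) {r0 : ℝ}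
    (hr0 : 0 < r0) : ∃ (u : ℂ) (t : ℝ), 0 < t ∧ ball u t ⊆ ball y0 r0 ∧
      ∀ w ∈ ball u t, ¬ Bad (rat P Q) A (w : OnePoint ℂ) := by
  classical
  by_contra hno
  push Not at hno
  have hcont : Continuous (rat P Q) := rat_continuous h.cop
  -- the set W
  set W : Set (OnePoint ℂ) := ((fun z : ℂ => (z : OnePoint ℂ)) '' closedBall (0 : ℂ) R0)ᶜ with hW
  have hWo : IsOpen W := by
    rw [hW, isOpen_compl_iff]
    exact ((isCompact_closedBall (0 : ℂ) R0).image OnePoint.continuous_coe).isClosed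
  have hWnb : ∀ z ∈ W, ¬ Bad (rat P Q) A z := by
    intro z hz
    induction z using OnePoint.rec with
    | infty => exact not_bad_of_mem h.closed h.inv h.inf
    | coe z =>
      refine hinf z ?_
      by_contra hlt
      exact hz ⟨z, by rw [mem_closedBall, dist_zero_right]; exact not_lt.mp hlt, rfl⟩
  have hfin : ∀ k : ℕ, ∀ x ∈ ball y0 r0, ∃ y : ℂ, (rat P Q)^[k] (x : OnePoint ℂ) = (y : OnePoint ℂ) ∧
      ‖y‖ ≤ R0 := by
    intro k x hx
    by_contra hc
    have hxW : (rat P Q)^[k] (x : OnePoint ℂ) ∈ W := by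
      rintro ⟨z, hz, hze⟩
      rw [mem_closedBall, dist_zero_right] at hz
      exact hc ⟨z, hze.symm, hz⟩
    have hopen : IsOpen ((fun z : ℂ => (rat P Q)^[k] (z : OnePoint ℂ)) ⁻¹' W ∩ ball y0 r0) :=
      (hWo.preimage ((hcont.iterate k).comp OnePoint.continuous_coe)).inter isOpen_ball
    obtain ⟨t, ht, hsub⟩ := Metric.isOpen_iff.mp hopen x ⟨hxW, hx⟩
    obtain ⟨v, hv, hvb⟩ := hno x t ht (hsub.trans inter_subset_right)
    exact hWnb _ (hsub hv).1 ((bad_iter (rat P Q) A (v : OnePoint ℂ) k).mpr hvb)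
  have hR0 : 0 ≤ R0 := by
    obtain ⟨y, _, hy⟩ := hfin 0 y0 (mem_ball_self hr0)
    exact (norm_nonneg y).trans hy
  obtain ⟨x, hx, hxb⟩ := hno y0 r0 hr0 subset_rfl
  obtain ⟨y, hyA, hcl⟩ := hxb
  induction y using OnePoint.rec with
  | infty => exact hyA h.inf
  | coe y =>
    obtain ⟨r, hr, hoff⟩ := exists_off h.closed hyA
    obtain ⟨ρ, hρ, hsub⟩ := Metric.isOpen_iff.mp isOpen_ball x hx
    set δ : ℝ := ρ / (2 * KK * (r + 2 * R0 + 1)) with hδdef
    have hKK := KK_pos
    have hδ : 0 < δ := by positivity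
    have hO : ∀ w ∈ ball ((R0 + 2 : ℝ) : ℂ) 1, ¬ Bad (rat P Q) A (w : OnePoint ℂ) := by
      intro w hw
      refine hinf w ?_
      rw [mem_ball, dist_eq_norm] at hw
      have h1 : ‖((R0 + 2 : ℝ) : ℂ)‖ ≤ ‖w‖ + ‖w - ((R0 + 2 : ℝ) : ℂ)‖ := by
        calc ‖((R0 + 2 : ℝ) : ℂ)‖ = ‖w - (w - ((R0 + 2 : ℝ) : ℂ))‖ := by ring_nf
          _ ≤ _ := norm_sub_le _ _
      rw [Complex.norm_real, Real.norm_of_nonneg (by linarith)] at h1
      linarith
    obtain ⟨k, w, G, _, hw, hxw, hG, hGd⟩ := scales h hnr hcl hyA one_pos hO hr hoff hδ 0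
    obtain ⟨F, hF, hFe⟩ := iter_diff h.cop (isOpen_ball (x := x) (ε := ρ)) k (fun v hv i _ => by
      obtain ⟨y, hy, _⟩ := hfin i v (hsub hv)
      exact ⟨y, hy⟩)
    have hFb : ∀ v ∈ ball x ρ, ‖F v‖ ≤ R0 := by
      intro v hv
      obtain ⟨y', hy', hyR⟩ := hfin k v (hsub hv)
      have : F v = y' := OnePoint.coe_injective ((hFe v hv).symm.trans hy')
      rw [this]; exact hyR
    have hxρ : x ∈ ball x ρ := mem_ball_self hρ
    have hmaps : MapsTo F (ball x ρ) (ball (F x) (2 * R0 + 1)) := by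
      intro v hv
      rw [mem_ball, dist_eq_norm]
      calc ‖F v - F x‖ ≤ ‖F v‖ + ‖F x‖ := norm_sub_le _ _
        _ < 2 * R0 + 1 := by linarith [hFb v hv, hFb x hxρ]
    have hGi : InjOn G (ball w (3 * r)) := hG.inj
    have hwr : w + (r : ℂ) ∈ closedBall w (3 * r / 2) := by
      rw [mem_closedBall, dist_eq_norm, add_sub_cancel_left, Complex.norm_real,
        Real.norm_of_nonneg hr.le]
      linarith
    have hww : w ∈ closedBall w (3 * r / 2) := mem_closedBall_self (by positivity)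
    have h1 := distort_lip (by positivity) hG.diff hGi hwr hww hww
    rw [add_sub_cancel_left, Complex.norm_real, Real.norm_of_nonneg hr.le, hG.val] at h1
    have h2 : ‖G (w + (r : ℂ)) - x‖ ≤ KK * δ * r := by
      refine h1.trans ?_
      gcongr
    have h3 : KK * δ * r < ρ := by
      rw [hδdef]
      have : KK * (ρ / (2 * KK * (r + 2 * R0 + 1))) * r = ρ * (r / (2 * (r + 2 * R0 + 1))) := by
        field_simp
      rw [this]
      have h4 : r / (2 * (r + 2 * R0 + 1)) < 1 := by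
        rw [div_lt_one (by positivity)]
        linarith
      nlinarith
    have hx' : G (w + (r : ℂ)) ∈ ball x ρ := by
      rw [mem_ball, dist_eq_norm]
      exact lt_of_le_of_lt h2 h3
    have h4 := Complex.dist_le_div_mul_dist_of_mapsTo_ball hF
      (hmaps.mono_right ball_subset_closedBall) hx'
    have hwr' : w + (r : ℂ) ∈ ball w (3 * r) := by
      rw [mem_ball, dist_eq_norm, add_sub_cancel_left, Complex.norm_real,
        Real.norm_of_nonneg hr.le]
      linarith
    have h5 : F (G (w + (r : ℂ))) = w + (r : ℂ) :=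
      OnePoint.coe_injective ((hFe _ hx').symm.trans (hG.inv _ hwr'))
    have h6 : F x = w := OnePoint.coe_injective ((hFe _ hxρ).symm.trans hxw)
    rw [h5, h6, dist_eq_norm, add_sub_cancel_left, Complex.norm_real,
        Real.norm_of_nonneg hr.le, dist_eq_norm] at h4
    have h7 : r ≤ (2 * R0 + 1) / ρ * (KK * δ * r) := by
      refine h4.trans ?_
      gcongr
    have h8 : (2 * R0 + 1) / ρ * (KK * δ * r) = r * ((2 * R0 + 1) / (2 * (r + 2 * R0 + 1))) := by
      rw [hδdef]
      field_simp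
    rw [h8] at h7
    have h9 : (2 * R0 + 1) / (2 * (r + 2 * R0 + 1)) < 1 := by
      rw [div_lt_one (by positivity)]
      linarith
    nlinarith

end Pool.Agent.H35.EX
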